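import Pool.Agent.MP_1246c0_nt.H12.SpecN

/-! Short vectors differ from the chosen generators by elements of few classes. -/

namespace Pool.Agent.MP_1246c0_nt.H12

open NumberField Finset Pool.Agent.MP_db5b97_nt.H85

namespace SH2

variable {F : Type} [Field F] [NumberField F]

variable (F) in
theorem ideals (K : ℕ) : ∃ (J : Type) (_ : Finite J) (g : J → Ideal (𝓞 F)),
    Nat.card J ≤ K ^ (Module.finrank ℚ F + 1) ∧
      ∀ c, c ≠ ⊥ → Ideal.absNorm c ≤ K → ∃ j, g j = c := by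
  have e : ∀ m : ℕ, Nat.card (𝓞 F ⧸ Ideal.span {(m : 𝓞 F)}) = m ^ Module.finrank ℚ F := fun m =>
    RingOfIntegers.rank F ▸ Ideal.absNorm_span_natCast (S := 𝓞 F) m
  have f : ∀ m : Fin K, Finite (𝓞 F ⧸ Ideal.span {((m.val + 1 : ℕ) : 𝓞 F)}) := fun m =>
    Nat.finite_of_card_ne_zero (by rw [e]; positivity)
  refine ⟨Σ m : Fin K, 𝓞 F ⧸ Ideal.span {((m.val + 1 : ℕ) : 𝓞 F)}, inferInstance,
    fun j => Ideal.span {((j.1.val + 1 : ℕ) : 𝓞 F), j.2.out}, ?_, fun c h0 hc => ?_⟩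
  · rw [Nat.card_sigma, pow_succ']
    refine (sum_le_card_nsmul _ _ (K ^ Module.finrank ℚ F) fun m _ => ?_).trans (by simp)
    rw [e]
    exact Nat.pow_le_pow_left m.2 _
  · obtain ⟨m, hm⟩ := Nat.exists_eq_succ_of_ne_zero (mt Ideal.absNorm_eq_zero_iff.1 h0)
    have h1 : ((m + 1 : ℕ) : 𝓞 F) ∈ c := by
      rw [← Nat.succ_eq_add_one, ← hm]
      exact Ideal.absNorm_mem c
    obtain ⟨y, rfl⟩ := IsDedekindDomain.exists_eq_span_pair h1 (Nat.cast_ne_zero.2 m.succ_ne_zero)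
    refine ⟨⟨⟨m, by omega⟩, Ideal.Quotient.mk _ y⟩, ?_⟩
    obtain ⟨a, ha⟩ := Ideal.mem_span_singleton'.1 (Ideal.Quotient.eq.1 (Ideal.Quotient.mk_out
      (Ideal.Quotient.mk (Ideal.span {((m + 1 : ℕ) : 𝓞 F)}) y)))
    simp only
    rw [eq_sub_iff_add_eq.1 ha |>.symm, add_comm _ y, Ideal.span_pair_add_mul_left]

theorem units (un : SUN) {n : ℕ} {θ : F} {γ : F ≃ₐ[ℚ] F} (cy : Cy F n θ γ) :
    ∃ (Q : Type) (_ : Finite Q) (r : Q → (𝓞 F)ˣ), Nat.card Q = 2 ^ 2 ^ n ∧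
      ∀ u, ∃ q v, u = r q * v ^ 2 := by
  have e : Nat.card (Eu F ⧸ ((Eu F).map (nsmulAddMonoidHom 2)).addSubgroupOf (Eu F)) = 2 ^ 2 ^ n :=
    un.idx F n θ γ cy
  choose r hr using fun x : Eu F => (un.int F x).1 x.2
  refine ⟨_, Nat.finite_of_card_ne_zero (by rw [e]; positivity), fun q => r q.out, e, fun u => ?_⟩
  let x : Eu F := ⟨Un.mk ((u : 𝓞 F) : F) (by simp), (un.int F _).2 ⟨u, rfl⟩⟩
  obtain ⟨y, hy, h⟩ := QuotientAddGroup.eq_iff_sub_mem.1 (QuotientAddGroup.out_eq'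
    (x : Eu F ⧸ ((Eu F).map (nsmulAddMonoidHom 2)).addSubgroupOf (Eu F))).symm
  refine ⟨x, r ⟨y, hy⟩, Units.ext (RingOfIntegers.ext ?_)⟩
  have h1 := congrArg Un.val (eq_sub_iff_add_eq'.1 h)
  rw [Un.val_add, nsmulAddMonoidHom_apply, Un.val_nsmul, hr, hr ⟨y, hy⟩] at h1
  simpa [x] using h1.symm

theorem norm_ker {p : ℕ} (ψ : 𝓞 F →+* ZMod p) : Ideal.absNorm (RingHom.ker ψ) = p :=
  (Nat.card_congr (RingHom.quotientKerEquivOfSurjective
    (ZMod.ringHom_surjective ψ)).toEquiv).trans (Nat.card_zmod p)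

theorem split {p h K : ℕ} (hp : 0 < p) (ψ : 𝓞 F →+* ZMod p) {π α : 𝓞 F}
    (e : Ideal.span {π} = RingHom.ker ψ ^ h) (h1 : ψ α = 0) (h0 : α ≠ 0)
    (h2 : |Algebra.norm ℤ α| ≤ K * p) : ∃ (c : Ideal (𝓞 F)) (τ : 𝓞 F), c ≠ ⊥ ∧
      Ideal.absNorm c ≤ K ∧ Ideal.span {τ} = c ^ h ∧ α ^ h = π * τ := by
  obtain ⟨c, hc⟩ : RingHom.ker ψ ∣ Ideal.span {α} :=
    Ideal.dvd_iff_le.2 ((Ideal.span_singleton_le_iff_mem _).2 h1)
  have n0 : Ideal.span {α} ≠ ⊥ := mt Ideal.span_singleton_eq_bot.1 h0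
  have e1 : Ideal.span {α ^ h} = Ideal.span {π} * c ^ h := by
    rw [← Ideal.span_singleton_pow, hc, mul_pow, e]
  obtain ⟨τ, hτ⟩ : π ∣ α ^ h :=
    Ideal.span_singleton_le_span_singleton.1 (e1.trans_le Ideal.mul_le_left)
  refine ⟨c, τ, fun h => n0 (by rw [hc, h, Ideal.mul_bot]), ?_, ?_, hτ⟩
  · have e2 := congrArg Ideal.absNorm hc
    rw [map_mul, norm_ker, Ideal.absNorm_span_singleton] at e2
    rw [Int.abs_eq_natAbs, e2, mul_comm (K : ℤ)] at h2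
    exact Nat.le_of_mul_le_mul_left (by exact_mod_cast h2) hp
  · rw [hτ, ← Ideal.span_singleton_mul_span_singleton] at e1
    refine mul_left_cancel₀ (fun h3 => pow_ne_zero h h0 ?_) e1
    rw [hτ, Ideal.span_singleton_eq_bot.1 h3, zero_mul]

theorem symb (qr' : SQR) {l h : ℕ} (hl : Gd 0 l) (ho : Odd h) {a b g w : ZMod l} (hb : b ≠ 0)
    (hg : g * w ^ 2 ≠ 0) (e : a ^ h = b * (g * w ^ 2)) : qr b = qr a + qr g := by
  have := Fact.mk hl.1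
  have sq : ∀ x y : ZMod l, x * y ^ 2 ≠ 0 → qr (x * y ^ 2) = qr x := fun x y hx => by
    have hy : y ≠ 0 := fun h => hx (by simp [h])
    rw [qr'.mul l _ _ hl (left_ne_zero_of_mul hx) (right_ne_zero_of_mul hx), pow_two,
      qr'.mul l _ _ hl hy hy, CharTwo.add_self_eq_zero, add_zero]
  obtain ⟨j, rfl⟩ := ho
  have e1 := congrArg qr e
  have e2 : a ^ (2 * j + 1) = a * (a ^ j) ^ 2 := by ring
  rw [qr'.mul l _ _ hl hb hg, sq _ _ hg, e2, sq _ _ (by rw [← e2, e]; exact mul_ne_zero hb hg)] at e1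
  rw [e1, add_assoc, CharTwo.add_self_eq_zero, add_zero]

end SH2

open SH2 in
theorem rowSH2 : OfSH2 := by
  classical
  intro _ un qr' dat n D K α hK hα
  obtain ⟨J, _, g, cJ, hJ⟩ := ideals D.F K
  obtain ⟨Q, _, r, cQ, hQ⟩ := units un D.cy
  let gen : Ideal (𝓞 D.F) → 𝓞 D.F := fun c =>
    if h : ∃ x, Ideal.span {x} = c ^ D.h then h.choose else 0
  have key : ∀ p, ∃ i : J × Q, Gd n p → ∃ (c : Ideal (𝓞 D.F)) (v : 𝓞 D.F), c ≠ ⊥ ∧
      Ideal.absNorm c ≤ K ∧ Ideal.span {gen (g i.1) * r i.2 * v ^ 2} = c ^ D.h ∧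
      α p ^ D.h = D.π p * (gen (g i.1) * r i.2 * v ^ 2) := by
    intro p
    by_cases hp : Gd n p
    · obtain ⟨ψ, h1, h2⟩ := D.hom p hp
      obtain ⟨a1, a2, a3⟩ := hα p hp
      obtain ⟨c, τ, c1, c2, c3, c4⟩ := split hp.1.pos ψ h2 (h1 _ ▸ a1) a2 a3
      obtain ⟨j, rfl⟩ := hJ c c1 c2
      have hx : ∃ x, Ideal.span {x} = g j ^ D.h := ⟨τ, c3⟩
      have e : Ideal.span {gen (g j)} = g j ^ D.h := by
        simp only [gen, dif_pos hx]
        exact hx.choose_spec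
      obtain ⟨u, rfl⟩ := Ideal.span_singleton_eq_span_singleton.1 (e.trans c3.symm)
      obtain ⟨q, v, rfl⟩ := hQ u
      refine ⟨(j, q), fun _ => ⟨g j, v, c1, c2, ?_⟩⟩
      simpa only [Units.val_mul, Units.val_pow_eq_pow_val, mul_assoc] using And.intro c3 c4
    · exact ⟨((hJ ⊤ top_ne_bot (by simpa using hK)).choose, (hQ 1).choose), fun h => absurd h hp⟩
  choose cl hcl using key
  let e := Finite.equivFin (J × Q)
  refine ⟨_, fun p => e (cl p), fun i p' => D.sy p' (gen (g (e.symm i).1) * r (e.symm i).2), ?_,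
    fun p p' hp hp' hlt hne => funext fun k => ?_⟩
  · rw [Nat.card_prod, cQ, mul_comm]
    rw [D.cy.rk] at cJ
    exact Nat.mul_le_mul_left _ (cJ.trans (Nat.pow_le_pow_right hK
      (Nat.succ_le_succ (Nat.le_self_pow two_ne_zero _))))
  · obtain ⟨c, v, c1, c2, c3, c4⟩ := hcl p hp
    obtain ⟨ψ, h1, -⟩ := D.hom p' hp'
    let ψ' := ψ.comp (MulSemiringAction.toRingHom _ (𝓞 D.F) (D.γ⁻¹ ^ k.val))
    have s : ∀ x, D.φ p' (D.γ⁻¹ ^ k.val • x) = ψ' x := fun x => h1 _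
    have := Fact.mk hp'.1
    simp only [Dat.rr, Dat.sy, Pi.add_apply, Equiv.symm_apply_apply, s]
    refine symb qr' ⟨hp'.1, hp'.2.1, Nat.zero_le _⟩ D.odd (w := ψ' v)
      (fun h => hne (dat.nz n D p p' k hp hp' ((s _).trans h)).1) (fun h => ?_) ?_
    · rw [← map_pow, ← map_mul, ← RingHom.mem_ker, ← Ideal.span_singleton_le_iff_mem, c3] at h
      have h4 := Ideal.absNorm_dvd_absNorm_of_le ((RingHom.ker_isPrime ψ').le_of_pow_le h)
      rw [norm_ker] at h4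
      have := Nat.le_of_dvd (Nat.pos_of_ne_zero (mt Ideal.absNorm_eq_zero_iff.1 c1)) h4
      omega
    · rw [← map_pow, c4, map_mul, map_mul, map_pow]

end Pool.Agent.MP_1246c0_nt.H12
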