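import Pool.Agent.MP_1246c0_nt.H12.SpecA

/-! Capitulation of the ramified primes gives boundedness of the class groups. -/

namespace Pool.Agent.MP_1246c0_nt.H12

open NumberField Finset Pool.Agent.MP_db5b97_nt.H85

namespace GR

variable {V : Type} [AddCommGroup V]

theorem chain (O : ℕ → AddSubgroup V) (R : AddSubgroup V) (mono : ∀ m, O m ≤ O (m + 1)) (n : ℕ) :
    ∀ a, (O a).relIndex R ≠ 0 → (O a).relIndex R ≤ n →
      ∃ m, a ≤ m ∧ m < a + n ∧ R ⊓ O (m + 1) ≤ O m := by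
  induction n with
  | zero => exact fun a h0 h1 => absurd (Nat.le_zero.1 h1) h0
  | succ n ih =>
    intro a h0 h1
    by_cases h : R ⊓ O (a + 1) ≤ O a
    · exact ⟨a, le_rfl, by omega, h⟩
    have e := AddSubgroup.relIndex_inf_mul_relIndex (O a) (O (a + 1)) R
    rw [inf_of_le_left (mono a), inf_comm] at e
    rw [← AddSubgroup.relIndex_eq_one] at h
    rw [← e] at h0 h1
    have h2 := Nat.pos_of_ne_zero (left_ne_zero_of_mul h0)
    have h3 := Nat.pos_of_ne_zero (right_ne_zero_of_mul h0)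
    obtain ⟨m, a1, a2, a3⟩ := ih (a + 1) h3.ne' (by
      have : 2 ≤ (O a).relIndex (R ⊓ O (a + 1)) := by omega
      nlinarith)
    exact ⟨m, by omega, by omega, a3⟩

theorem half {G : Type} [Group G] [DistribMulAction G V] {ρ m0 : ℕ}
    (hB : ∀ (A : Type) [AddCommGroup A] [Finite A] (γ : A →+ A) (K m : ℕ),
      (∀ a : A, ∃ k : ℕ, 2 ^ k • a = 0) → (∀ a, γ^[2 ^ K] a = a) →
      Nat.card {a : A // 2 • a = 0} ≤ 2 ^ ρ → m0 ≤ m → ∀ a : A, ∃ a', 2 • a = a' + γ^[2 ^ m] a')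
    (g : G) (I O : AddSubgroup V) (K m : ℕ) (hI : ∀ D ∈ I, g • D ∈ I) (hO : ∀ D ∈ O, g • D ∈ O)
    (fix : ∀ D ∈ I, g ^ 2 ^ K • D = D) (fin : O.relIndex I ≠ 0)
    (odd : ∀ k : ℕ, Odd k → ∀ D, k • D ∈ O → D ∈ O)
    (rk : O.relIndex (I ⊓ O.comap (nsmulAddMonoidHom 2)) ≤ 2 ^ ρ) (hm : m0 ≤ m) :
    ∀ D ∈ I, ∃ D' ∈ I, 2 • D - (D' + g ^ 2 ^ m • D') ∈ O := by
  let N := O.addSubgroupOf I
  have : Finite (I ⧸ N) := AddSubgroup.index_ne_zero_iff_finite.1 fin
  let f : I →+ I := ((DistribSMul.toAddMonoidHom V g).comp I.subtype).codRestrict I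
    fun D => hI D D.2
  let γ : I ⧸ N →+ I ⧸ N := QuotientAddGroup.map N N f fun D hD => hO D hD
  have it : ∀ (n : ℕ) (D : I), ∃ E : I, (E : V) = g ^ n • (D : V) ∧
      γ^[n] (D : I ⧸ N) = (E : I ⧸ N) := by
    intro n D
    induction n with
    | zero => exact ⟨D, by simp, rfl⟩
    | succ n ih =>
      obtain ⟨E, e1, e2⟩ := ih
      refine ⟨f E, ?_, by rw [Function.iterate_succ_apply', e2]; rfl⟩
      rw [pow_succ', mul_smul, ← e1]
      rfl
  intro D hD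
  refine (hB (I ⧸ N) γ K m (fun a => ?_) (fun a => ?_) ?_ hm ((⟨D, hD⟩ : I) : I ⧸ N)).elim
    fun a' e => ?_
  rotate_right
  · obtain ⟨D', rfl⟩ := QuotientAddGroup.mk_surjective a'
    obtain ⟨E, e1, e2⟩ := it (2 ^ m) D'
    rw [e2, ← QuotientAddGroup.mk_nsmul, ← QuotientAddGroup.mk_add, QuotientAddGroup.eq_iff_sub_mem]
      at e
    exact ⟨D', D'.2, e1 ▸ e⟩
  · obtain ⟨k, j, hj, e⟩ := Nat.exists_eq_two_pow_mul_odd (addOrderOf_pos a).ne'
    obtain ⟨E, rfl⟩ := QuotientAddGroup.mk_surjective a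
    have h := addOrderOf_nsmul_eq_zero (E : I ⧸ N)
    rw [e, mul_comm, mul_smul, ← QuotientAddGroup.mk_nsmul, ← QuotientAddGroup.mk_nsmul,
      QuotientAddGroup.eq_zero_iff] at h
    exact ⟨k, by
      rw [← QuotientAddGroup.mk_nsmul, QuotientAddGroup.eq_zero_iff]
      exact odd j hj _ h⟩
  · obtain ⟨E, rfl⟩ := QuotientAddGroup.mk_surjective a
    obtain ⟨E', e1, e2⟩ := it (2 ^ K) E
    rw [e2, Subtype.ext (e1.trans (fix E E.2))]
  · refine le_of_eq_of_le ?_ rk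
    rw [← AddSubgroup.relIndex_addSubgroupOf (inf_le_left : I ⊓ _ ≤ I)]
    have e := AddSubgroup.relIndex_ker ((I ⊓ O.comap (nsmulAddMonoidHom 2)).addSubgroupOf I)
      (QuotientAddGroup.mk' N)
    rw [QuotientAddGroup.ker_mk'] at e
    rw [e]
    refine Nat.card_congr (Equiv.subtypeEquivRight fun a => ?_)
    obtain ⟨E, rfl⟩ := QuotientAddGroup.mk_surjective a
    rw [← QuotientAddGroup.mk_nsmul, QuotientAddGroup.eq_zero_iff]
    refine ⟨fun h => ⟨E, ⟨E.2, h⟩, rfl⟩, ?_⟩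
    rintro ⟨E', h1, h2⟩
    have h3 : E' - E ∈ N := QuotientAddGroup.eq_iff_sub_mem.1 h2
    have h4 : 2 • E' ∈ N := h1.2
    have h5 := sub_mem h4 (nsmul_mem h3 2)
    rwa [smul_sub, sub_sub_cancel] at h5

theorem step {I O I' O' : AddSubgroup V} (hI : I ≤ I') (hO : ∀ D ∈ O, 2 • D ∈ O)
    (fin : O.relIndex I ≠ 0) (fin' : O'.relIndex I' ≠ 0) (hO' : O' ≤ I')
    (cap : ∀ D ∈ I, 2 • D ∈ O → D ∈ O') (hf : ∀ D ∈ I', ∃ E ∈ I, 2 • D - E ∈ O') :
    (O'.comap (nsmulAddMonoidHom 2)).relIndex I' ≤ (O.comap (nsmulAddMonoidHom 2)).relIndex I := by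
  rw [AddSubgroup.relIndex_comap, ← AddSubgroup.inf_relIndex_left I]
  calc O'.relIndex (I'.map (nsmulAddMonoidHom 2)) ≤ O'.relIndex (I ⊔ O') := by
        refine AddSubgroup.relIndex_le_of_le_right ?_
          (mt (AddSubgroup.relIndex_eq_zero_of_le_right (sup_le hI hO')) fin')
        rintro _ ⟨D, hD, rfl⟩
        obtain ⟨E, h1, h2⟩ := hf D hD
        have := add_mem (AddSubgroup.mem_sup_left h1 : E ∈ I ⊔ O') (AddSubgroup.mem_sup_right h2)
        rwa [add_sub_cancel] at this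
    _ = O'.relIndex I := AddSubgroup.relIndex_sup_right _ _
    _ ≤ _ := by
        refine AddSubgroup.relIndex_le_of_le_left (fun D hD => cap D hD.1 hD.2) ?_
        rw [AddSubgroup.inf_relIndex_left]
        exact mt (AddSubgroup.relIndex_eq_zero_of_le_left hO) fin

theorem split {I O : AddSubgroup V} (h : O ≤ I) :
    O.relIndex I = O.relIndex (I ⊓ O.comap (nsmulAddMonoidHom 2)) *
      (O.comap (nsmulAddMonoidHom 2)).relIndex I := by
  rw [← AddSubgroup.inf_relIndex_left I (O.comap _)]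
  exact (AddSubgroup.relIndex_mul_relIndex _ _ _ (le_inf h fun D hD => nsmul_mem hD 2)
    inf_le_left).symm

theorem od_odd {L : Type} [Field L] [NumberField L] (U : AddSubgroup (Un L)) (k : ℕ) (hk : Odd k)
    (D : Dv L 2) (h : k • D ∈ Od U) : D ∈ Od U := by
  obtain ⟨j, hj, x, hx, e⟩ := h
  exact ⟨j * k, hj.mul hk, x, hx, by rw [mul_smul, e]⟩

end GR

open GR in
theorem rowGR : OfGR := by
  intro _ tp amb cap bnd br d m1 sqf md H
  obtain ⟨m0, hB⟩ := bnd (2 * tt d + 1)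
  choose b hb using br.ub d
  obtain ⟨m2, a1, a2, a3, a4⟩ : ∃ m2, m1 ≤ m2 ∧ am d ≤ m2 ∧ tt d ≤ m2 ∧ m0 ≤ m2 :=
    ⟨m1 + am d + tt d + m0, by omega, by omega, by omega, by omega⟩
  obtain ⟨m3, h3⟩ : ∃ m3, m3 = m2 + 2 ^ tt d := ⟨_, rfl⟩
  have a5 : m2 ≤ m3 := h3 ▸ Nat.le_add_right _ _
  refine br.br d (2 ^ (2 * tt d + 1) * (range (m3 + 1)).sup b) sqf md fun L _ _ M s θ σ γ T => ?_
  have bs : ∀ m, m ≤ m3 → b m ≤ (range (m3 + 1)).sup b := fun m hm =>
    le_sup (f := b) (mem_range.2 (by omega))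
  rcases le_total M m3 with hM | hM
  · exact ((hb M L M s θ σ γ T le_rfl).2.trans (bs M hM)).trans
      (Nat.le_mul_of_pos_left _ (by positivity))
  have S := amb.sub L σ γ
  have mono : Monotone (Oc γ) := monotone_nat_of_le_succ fun m => (S m).2.2.1
  have dm := amb.dm L d M m2 s θ σ γ T (a5.trans hM)
  rw [inf_of_le_left ((tp.fin L d M s θ σ γ T).2.2.2 m2 a2)] at dm
  obtain ⟨m, b1, b2, b3⟩ := chain (Oc γ) (Rm L d) (fun m => (S m).2.2.1) _ m2 dm.1 dm.2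
  have R : Rm L d ≤ Oc γ m3 :=
    (H L M m s θ σ γ T (a1.trans b1) (by omega) b3).trans (mono (by omega))
  have E : ∀ m, m3 ≤ m → m ≤ M → ((Oc γ m).comap (nsmulAddMonoidHom 2)).relIndex (Iv γ m) ≤ b m3 := by
    intro m hm
    induction m, hm using Nat.le_induction with
    | base =>
      intro _
      have u := hb m3 L M s θ σ γ T hM
      exact (AddSubgroup.relIndex_le_of_le_left (fun D hD => nsmul_mem hD 2) u.1).trans u.2
    | succ m hm ih =>
      intro h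
      have f1 := (hb (m + 1) L M s θ σ γ T h).1
      refine (step (S m).2.2.2.1 (fun D hD => nsmul_mem hD 2) (hb m L M s θ σ γ T (by omega)).1 f1
        (S (m + 1)).2.1 (fun D h1 h2 => ?_) fun D hD => ?_).trans (ih (by omega))
      · exact sup_le (R.trans (mono (by omega))) le_rfl (cap.cap L d M m s θ σ γ T h
          ((a3.trans (a5.trans hm)).trans Nat.lt_two_pow_self.le) D h1 h2)
      · obtain ⟨D', h1, h2⟩ := half hB γ (Iv γ (m + 1)) (Oc γ (m + 1)) (m + 1) m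
          (S (m + 1)).2.2.2.2.2.1 (S (m + 1)).2.2.2.2.1 (fun _ h => h) f1 (od_odd _)
          (cap.rank L d M (m + 1) s θ σ γ T h).2 (a4.trans (a5.trans hm)) D hD
        refine ⟨_, ?_, h2⟩
        have h3 : γ ^ 2 ^ (m + 1) • D' = D' := h1
        rw [Iv, mem_Fx, smul_add, smul_smul, ← pow_add, ← two_mul, ← pow_succ', h3, add_comm]
  rw [split (S M).2.1]
  exact Nat.mul_le_mul (cap.rank L d M M s θ σ γ T le_rfl).2 ((E M hM le_rfl).trans (bs m3 le_rfl))

end Pool.Agent.MP_1246c0_nt.H12
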