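import Pool.Agent.MP_1246c0_nt.H25.SpecC

namespace Pool.Agent.MP_1246c0_nt.H25

open Finset Matrix Module Pool.Agent.MP_db5b97_nt.H85
open Pool.Agent.MP_1246c0_nt.H12

namespace CNT

variable {ℓ : ℕ}

/-- reduction modulo two -/
def rd (x : Fin ℓ → ℤ) : Vb ℓ := fun i => (x i : F2)

theorem rd_lf (v : Vb ℓ) : rd (lf v) = v := funext fun i => by simp [rd, lf]

theorem rd_sub (x y : Fin ℓ → ℤ) : rd (x - y) = rd x - rd y := funext fun i => by simp [rd]

theorem mem_iff (x : Fin ℓ → ℤ) : x ∈ Mu (Fin ℓ → ℤ) 1 ↔ rd x = 0 := by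
  rw [mem_Mu]
  refine ⟨fun ⟨y, e⟩ => funext fun i => ?_, fun h => ?_⟩
  · rw [rd, ← e]
    exact (ZMod.intCast_zmod_eq_zero_iff_dvd _ 2).2 ⟨y i, by simp⟩
  · choose y hy using fun i => (ZMod.intCast_zmod_eq_zero_iff_dvd _ 2).1 (congrFun h i)
    exact ⟨y, funext fun i => by simp [hy i]⟩

theorem rd_pow (g : Matrix (Fin ℓ) (Fin ℓ) ℤ) (m : ℕ) (x : Fin ℓ → ℤ) :
    rd ((toLin' g ^ m) x) = bar g ^ m *ᵥ rd x := by
  induction m with
  | zero => simp
  | succ m ih =>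
    rw [pow_succ', pow_succ', Module.End.mul_apply, ← mulVec_mulVec, ← ih]
    funext i
    simp [rd, bar, mulVec, dotProduct]

theorem fix_iff (g : Matrix (Fin ℓ) (Fin ℓ) ℤ) (m : ℕ) (x : Fin ℓ → ℤ) :
    (toLin' g ^ m) x - x ∈ Mu (Fin ℓ → ℤ) 1 ↔ bar g ^ m *ᵥ rd x = rd x := by
  rw [mem_iff, rd_sub, rd_pow, sub_eq_zero]

theorem fix_pow {G : Mb ℓ} {v : Vb ℓ} (h : G *ᵥ v = v) (m : ℕ) : G ^ m *ᵥ v = v := by
  induction m with
  | zero => simp
  | succ m ih => rw [pow_succ, ← mulVec_mulVec, h, ih]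

theorem fix_odd {G : Mb ℓ} {n : ℕ} (h : G ^ 2 ^ n = 1) (i : ℕ) {o : ℕ} (ho : Odd o) (v : Vb ℓ) :
    G ^ ((2 ^ i * o : ℕ) : ZMod (2 ^ n)).val *ᵥ v = v ↔ G ^ 2 ^ min i n *ᵥ v = v := by
  have e : ∀ m, G ^ (m % 2 ^ n) = G ^ m := fun m => (pow_eq_pow_mod m h).symm
  rw [ZMod.val_natCast, e, pow_mul]
  rcases le_total n i with c | c
  · obtain ⟨k, rfl⟩ := Nat.exists_eq_add_of_le c
    rw [min_eq_right c, pow_add, pow_mul, h]
    simp
  · rw [min_eq_left c]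
    refine ⟨fun a => ?_, fun a => fix_pow a o⟩
    have b : (G ^ 2 ^ i) ^ 2 ^ n = 1 := by rw [← pow_mul, mul_comm, pow_mul, h, one_pow]
    obtain ⟨m, -, hm⟩ := Nat.exists_mul_mod_eq_of_coprime 1
      ((Nat.coprime_two_right.2 ho).pow_right n) (by positivity)
    have := fix_pow a m
    rwa [← pow_mul, pow_eq_pow_mod _ b, hm, ← pow_eq_pow_mod _ b, pow_one] at this

/-- fixed vectors -/
def Fx (A : Mb ℓ) : Submodule F2 (Vb ℓ) := LinearMap.ker (A - 1).mulVecLin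

theorem mem_Fx {A : Mb ℓ} {v : Vb ℓ} : v ∈ Fx A ↔ A *ᵥ v = v := by
  simp [Fx, sub_eq_zero]

theorem card_eq {S T : Submodule F2 (Vb ℓ)} (h : finrank F2 S = finrank F2 T) :
    (S : Set (Vb ℓ)).ncard = (T : Set (Vb ℓ)).ncard := by
  change Nat.card S = Nat.card T
  rw [Module.natCard_eq_pow_finrank (K := F2), Module.natCard_eq_pow_finrank (K := F2) (V := T), h]

theorem card_left (A : Mb ℓ) : {w | w ᵥ* A = w}.ncard = {v | A *ᵥ v = v}.ncard := by
  have a := (A - 1).mulVecLin.finrank_range_add_finrank_ker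
  have b := (Aᵀ - 1).mulVecLin.finrank_range_add_finrank_ker
  have c : (Aᵀ - 1).rank = (A - 1).rank := by
    rw [← rank_transpose (A - 1), transpose_sub, transpose_one]
  have := card_eq (S := Fx Aᵀ) (T := Fx A) 
    (Nat.add_left_cancel ((congrArg (· + _) c.symm).trans (b.trans a.symm)))
  convert this using 2 <;> ext v <;> simp [mem_Fx, mulVec_transpose]

theorem card_K4 (A : Mb ℓ) : (K4 A : Set (Vb ℓ)).ncard = {v | A *ᵥ v = v}.ncard := by
  have a := Submodule.finrank_add_eq_of_isCompl (K4_spec A)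
  have b := Subspace.finrank_add_finrank_dualAnnihilator_eq (Fx A)
  have c : An A = (Fx A).dualAnnihilator.map (dotProductEquiv F2 (Fin ℓ)).symm.toLinearMap := by
    rw [← Submodule.comap_equiv_eq_map_symm]
    ext w
    rw [Submodule.mem_comap, Submodule.mem_dualAnnihilator]
    exact forall_congr' fun x => imp_congr mem_Fx.symm Iff.rfl
  rw [c, LinearEquiv.finrank_map_eq] at a
  have := card_eq (S := K4 A) (T := Fx A)
    (Nat.add_left_cancel (a.trans (b.symm.trans (add_comm _ _))))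
  convert this using 2
  ext v
  simp [mem_Fx]

theorem card_pi {κ V : Type} [Fintype κ] (S : κ → Set V) :
    {w : κ → V | ∀ ρ, w ρ ∈ S ρ}.ncard = ∏ ρ, (S ρ).ncard :=
  (Nat.card_congr (Equiv.subtypePiEquivPi (p := fun ρ x => x ∈ S ρ))).trans Nat.card_pi

end CNT

open CNT in
theorem rowCNT : OfCNT := by
  intro _ hC hD hP ι _ _ ℓ S μ pr P J i1 hS hL hμ
  have n2 : μ.a + 2 ≤ μ.n := by have := hμ.le; have := hμ.two; omega
  obtain ⟨a1, a2, -⟩ := hC.adm _ _ _ _ _ hμ.adm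
  have ad := a1 1 μ.n (by omega)
  have gn := fun x => a2 μ.n x (by omega)
  obtain ⟨-, od, -, -, -, -, -, l1, -, -, -, -, ch⟩ := hC.lab ι S.Φ pr P i1 hS.one hL
  have G1 : bar μ.g ^ 2 ^ μ.n = 1 := by
    refine toLin'.injective (LinearMap.ext fun v => ?_)
    have := (fix_iff _ _ _).1 (ad.2 (lf v))
    rwa [toLin'_apply, toLin'_apply, one_mulVec, ← rd_lf v]
  have k0 : (kap μ.n (S.Φ.fr 2)).val = 1 := by
    rw [hS.one.v.kf1, ZMod.val_one_eq_one_mod]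
    exact Nat.mod_eq_of_lt (Nat.one_lt_two_pow (by omega))
  have k1 : ∀ l v, bar μ.g ^ (kap μ.n (S.Φ.fr (pr l))).val *ᵥ v = v ↔
      bar μ.g ^ 2 ^ min (lev (pr l)) μ.n *ᵥ v = v := fun l v => by
    obtain ⟨o, ho, e⟩ := hS.one.v.kfr μ.n _ (hL.odd l)
    rw [e, fix_odd G1 _ ho]
  have hV : ∀ v, v ∈ Vs S.Φ μ pr P 1 ↔ (dd pr P % 4 = 1 → v none = 0) ∧
      ∀ o, bar μ.g ^ (kap μ.n (S.Φ.fr (po pr o))).val *ᵥ v o = v o := fun v => by
    constructor
    · rintro ⟨ψ, c, rfl⟩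
      obtain ⟨b1, b2, -⟩ := hD.dec ι _ S pr P μ.n i1 _ _ ψ hS hL le_rfl ad gn c
      refine ⟨fun e => (mem_iff _).1 (c.unr 2 Nat.prime_two (.inl ?_)), ?_⟩
      · refine (show ∀ x : F2, x ≠ 1 → x = 0 by decide) _ fun b => ?_
        rcases (ch 2 Nat.prime_two).1 b with b | ⟨i, b⟩ | b
        · have := hL.md; omega
        · exact (hL.odd i).2.1 b.symm
        · omega
      · rintro (_ | l)
        · exact k0.symm ▸ (fix_iff μ.g 1 _).1 b2
        · exact (k1 l _).2 ((fix_iff _ _ _).1 (b1 l))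
    · rintro ⟨b1, b2⟩
      obtain ⟨ψ, c, c1, c2⟩ := hD.ex ι _ S pr P μ.n i1 _ _ (fun l => lf (v (some l))) (lf (v none))
        hS hL le_rfl ad gn
        (fun l => (fix_iff _ _ _).2 (by rw [rd_lf]; exact (k1 l _).1 (b2 (some l))))
        ((fix_iff μ.g 1 _).2 (by rw [rd_lf, ← k0]; exact b2 none))
        fun e => (mem_iff _).2 (by rw [rd_lf, b1 e])
      refine ⟨ψ, c, funext ?_⟩
      rintro (_ | l)
      · rw [mem_iff, rd_sub, rd_lf, sub_eq_zero] at c2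
        exact c2
      · have := c1 l
        rw [mem_iff, rd_sub, rd_lf, sub_eq_zero] at this
        exact this
  refine ⟨hV, ?_⟩
  let A : Option ι → Mb ℓ := fun o => bar μ.g ^ (kap μ.n (S.Φ.fr (po pr o))).val
  let SV : Option ι → Set (Vb ℓ) := fun o =>
    {v | (o = none → dd pr P % 4 = 1 → v = 0) ∧ A o *ᵥ v = v}
  let SW : Option ι ⊕ Bool → Set (Vb ℓ) := Sum.elim (fun o => {w | (o = some i1 → w = 0) ∧
    (o = none → dd pr P % 4 = 1 → w = 0) ∧ w ᵥ* A o = w}) fun b =>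
    {w | b = true → (dd pr P % 8 = 5 → w ᵥ* bar μ.g = w) ∧ (dd pr P % 8 ≠ 5 → w ∈ K4 (bar μ.g))}
  have e1 : Vs S.Φ μ pr P 1 = {v | ∀ o, v o ∈ SV o} := Set.ext fun v => (hV v).trans
    ⟨fun h o => ⟨fun e => e ▸ h.1, h.2 o⟩, fun h => ⟨(h none).1 rfl, fun o => (h o).2⟩⟩
  have e2 : Ws S.Φ μ pr P i1 1 = {w | ∀ ρ, w ρ ∈ SW ρ} := Set.ext fun w =>
    (hP.one ι ℓ S.Φ μ pr P i1 w hS.one hL).1.trans ⟨fun h ρ => by
      rcases ρ with o | b
      · exact ⟨fun e => e ▸ h.one, fun e => e ▸ h.two, h.fix o⟩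
      · exact fun e => e ▸ ⟨h.five, h.four⟩, fun h => ⟨(h (.inl _)).1 rfl, (h (.inl _)).2.1 rfl,
        fun o => (h (.inl o)).2.2, (h (.inr _) rfl).1, (h (.inr _) rfl).2⟩⟩
  have c1 : (SW (.inr false)).ncard = 2 ^ ℓ := by simp [SW]
  have c2 : (SW (.inr true)).ncard = (SV (some i1)).ncard := by
    have : SV (some i1) = {v | bar μ.g *ᵥ v = v} := Set.ext fun v => by
      simpa [SV, A, l1, po] using k1 i1 v
    rw [this]
    by_cases e : dd pr P % 8 = 5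
    · rw [← card_left]; simp [SW, e]
    · rw [← card_K4]; simp [SW, e]
  have c3 : (SW (.inl (some i1))).ncard = 1 :=
    Set.ncard_eq_one.2 ⟨0, Set.ext fun w => ⟨fun h => h.1 rfl, fun h => by
      rw [Set.mem_singleton_iff.1 h]; exact ⟨fun _ => rfl, fun _ _ => rfl, zero_vecMul _⟩⟩⟩
  have c4 : ∀ o ∈ univ.erase (some i1), (SW (.inl o)).ncard = (SV o).ncard := fun o ho => by
    have ho := (mem_erase.1 ho).1
    by_cases e : o = none ∧ dd pr P % 4 = 1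
    · congr 1
      ext w
      exact ⟨fun h => by rw [h.2.1 e.1 e.2]; exact ⟨fun _ _ => rfl, mulVec_zero _⟩, fun h => by
        rw [h.1 e.1 e.2]; exact ⟨fun _ => rfl, fun _ _ => rfl, zero_vecMul _⟩⟩
    · convert card_left (A o) using 2 <;> ext w
      · exact ⟨fun h => h.2.2, fun h => ⟨fun c => (ho c).elim, fun c d => (e ⟨c, d⟩).elim, h⟩⟩
      · exact ⟨fun h => h.2, fun h => ⟨fun c d => (e ⟨c, d⟩).elim, h⟩⟩
  rw [e1, e2, CNT.card_pi, CNT.card_pi, Fintype.prod_sum_type, Fintype.prod_bool, c1, c2,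
    ← mul_prod_erase _ _ (mem_univ (some i1)), c3, prod_congr rfl c4,
    ← mul_prod_erase _ (fun o => (SV o).ncard) (mem_univ (some i1))]
  ring

end Pool.Agent.MP_1246c0_nt.H25
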