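import Pool.Agent.MP_1246c0_nt.H25.SpecN

/-! Large solutions at low levels. -/

namespace Pool.Agent.MP_1246c0_nt.H25

open Finset Matrix Filter Function Pool.Agent.MP_db5b97_nt.H85
open Pool.Agent.MP_1246c0_nt.H12

namespace E1

theorem ind_le {p q : Prop} (h : p → q) : ind p ≤ ind q := by
  unfold ind
  by_cases a : p
  · simp [a, h a]
  · split_ifs <;> simp

theorem mx (hL : SLAM) (hS : SSY2) {ι : Type} [Fintype ι] [DecidableEq ι] (D : ∀ n, Dat n)
    {pr : ι → ℕ} (P : ℕ) (h : ∀ i, Gd 0 (pr i)) : MX D 0 (1 : F2) pr P = Sm0 pr P :=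
  (hS.aus ι F2 D i2 i2 1 0 pr P hL.zero.1 h).1

end E1

open E1 in
theorem rowE1 : OfE1 := by
  intro hL hQ hP hS hR hG hE A ε hε
  obtain ⟨γ, hγ⟩ := hR A (ε / 2) (by positivity)
  refine ⟨γ, fun S π hA hj => ?_⟩
  obtain ⟨tp0, h0⟩ := hγ π.j0 hj
  filter_upwards [hE S π hA, hP π.j0 (tp0 + 1 + 2 / ε)] with X hX hp
  have p0 : (0 : ℝ) ≤ tp0 := Nat.cast_nonneg _
  have p1 : 0 < 2 / ε := by positivity
  have l1 := hp.1
  have l2 : tp0 ≤ tpX X π.j0 := Nat.cast_le.1 (by linarith [hp.2.2.2.2.2.2.1] : (tp0 : ℝ) ≤ _)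
  have key := hX 0 F2 Unit i2 i2 1 (fun _ => ()) (fun Sg _ i1 p M => ∃ a ≤ A, ∃ b,
    BadLo (fun i => lev (prs Sg p i)) (fun i => eps (prs Sg p i)) (.inl i1) M γ a b) (ε / 2)
    hL.zero.1 (by simp only [pow_zero, one_pow]; linarith)
    (by simpa using sq_nonneg (ll X)) (by positivity) (fun Sg m i1 p p' M h hb => by
      have e1 : (fun i => lev (prs Sg p' i)) = fun i => lev (prs Sg p i) :=
        funext fun i => i.rec (fun _ => rfl) fun k => (h k).1.symm
      have e2 : (fun i => eps (prs Sg p' i)) = fun i => eps (prs Sg p i) :=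
        funext fun i => i.rec (fun _ => rfl) fun k => (h k).2.1.symm
      rw [e1, e2]
      exact hb) (fun Sg m i1 p P hv hn => by
      rw [mx hL hS _ P hv.lb.odd]
      exact h0 _ _ _ _ _ _ _ l2 hn.nc hn.fv fun l _ l' _ =>
        hQ.sym _ _ P hv.lb.inj hv.lb.odd l (mem_univ _) l' (mem_univ _))
  have fin : ε / 2 * X + X / Real.exp (ll X) ≤ ε * X := by
    have e := Real.add_one_le_exp (ll X)
    have x0 : (0 : ℝ) ≤ X := Nat.cast_nonneg _
    have : (X : ℝ) / Real.exp (ll X) ≤ X / (2 / ε) :=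
      div_le_div_of_nonneg_left x0 p1 (by linarith)
    rw [div_div_eq_mul_div] at this
    linarith
  refine le_trans (hG.mono X _ _ fun Sg m i1 p P hv => ind_le fun h => ⟨h.1, fun M' hM => ?_⟩)
    (key.trans fin)
  have : M' = Sm0 (prs Sg p) P := by
    rw [← mx hL hS S.D P hv.lb.odd]
    ext i j
    have := hM i j
    rwa [sub_self, zero_pow (by positivity), zero_dvd_iff, sub_eq_zero] at this
  rw [this]
  exact h.2

end Pool.Agent.MP_1246c0_nt.H25
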